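import Pool.Agent.Y103.Sq.Final

/-!
# The Tate conjecture for all products of varieties of K3 type over finite fields, and for their products with other
varieties

Let `X 1, …, X r` be smooth projective varieties over a finite field such that the cohomology of `X i` is spanned by classes
of algebraic cycles and by eigenvectors of the Frobenius endomorphism in the middle degree, with eigenvalues which
are, up to powers, `q ^ (dim / 2)` times the conjugates of a number `α i` in a CM field `E i` (`IsSpannedByNumber`), for
example K3 surfaces and cubic fourfolds of finite height, and ordinary elliptic curves. If the eigenvalues have multiplicity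
one (`OnLine`), nothing is assumed about products of the `X i`. If not, we assume the Tate conjecture for `X i × X i` in
one codimension (for K3 surfaces this is a theorem of Ito, Ito and Koshikawa).

The number `α i` is assumed to be *free* (`IsFreeNumber`): the local degree of the place with positive slope is odd and
`[E i : ℚ] = 2 d` with `d ≤ 11`, up to four exceptional pairs; or this local degree is at most two or `d` is prime, and no norm
of `α i` to a proper CM subfield is a root of unity; or the Galois group of `E i` contains all changes of sign.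

The starting file `MP_361a6f_ag.ProductsOfK3Type` proves the standard conjecture of Hodge type and the agreement of
homological and numerical equivalence for the products of these varieties, and the transfer of the conjecture of
Hodge type to products with other varieties. Here we state the **Tate conjecture**.
-/

set_option autoImplicit false

open CategoryTheory AlgebraicGeometry NumberField

universe u v

namespace Pool.Agent.Results.MP_021685_ag.ProductsOfKThreeType

open Pool.Agent.H914 Pool.Agent.H914.VarClass Pool.Agent.H914.VarClass.Obj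
  Pool.Agent.H914.WeilCohomology Pool.Agent.W534 Pool.Agent.W517.K3 Pool.Agent.Y138.KC
  Pool.Agent.TH121.KT Pool.Agent.TH132.A Pool.Agent.Y103.Hk Pool.Agent.Y103.Sh Pool.Agent.Y103.Sq

/-- **The Tate conjecture for all products of varieties of K3 type, and for their products with other varieties.** Let `Z` be
a product, with any bracketing, of `n i` copies of `X i` for all `i` and of varieties all of whose cohomology is algebraic. Then
the Tate conjecture and the semisimplicity of the eigenvalue `q ^ c` hold for `Z` in all codimensions `c`. For every smooth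
projective variety `U` whose Frobenius slopes are products of slopes in the fields `L ∈ 𝓛` the Tate conjecture for `Z × U` in
codimension `c` is equivalent to the Tate conjecture for `U` in the codimensions `c - i` for which there is a homologically
nontrivial cycle of codimension `i` on `Z`, and the same with semisimplicity. -/
theorem result {k : Type u} [Field k] {𝒱 : VarClass k} {ops : CycleOps 𝒱}
    (W : WeilCohomology.{u, v} ops) [IsAlgClosed W.K] (p : ℕ) [Fact p.Prime]
    (Φ : FrobSystem W p) (ι : AlgebraicClosure ℚ →+* PadicAlgCl p)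
    (r : ℕ) (X : Fin r → 𝒱.Obj) (E : Fin r → Type) [∀ i, Field (E i)] [∀ i, NumberField (E i)]
    [∀ i, IsCMField (E i)] (e : Fin r → ℕ) (α : ∀ i, E i)
    (hα : ∀ i, IsFreeNumber ι (α i)) (hX : ∀ i, IsSpannedByNumber Φ (X i) (e i) (α i))
    (hX2 : ∀ i, (∀ σ, OnLine W.K (letters Φ (X i) (e i) (α i) σ)) ∨ TateSquare Φ (X i))
    (n : Fin r → ℕ) (Z : 𝒱.Obj) (hZ : IsProductOfCopies W X n Z)
    (𝓛 : Set (IntermediateField ℚ (AlgebraicClosure ℚ)))
    (L₀ : Fin r → IntermediateField ℚ (AlgebraicClosure ℚ))
    (hL₀ : ∀ i, IsStable (L₀ i) ∧ SmallIntersection (E i) (L₀ i) (n i))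
    (h𝓛 : ∀ i, ∀ L ∈ 𝓛, IsAllowed (E i) (L₀ i) L)
    (hE : ∀ i j, i < j → IsAllowed (E i) (L₀ i) (galoisClosure (E j))) :
    (∀ c, SemisimpleTateIn Φ Z c) ∧
    ∀ U : 𝒱.Obj, HasSlopes Φ ι 𝓛 U → ∀ c,
      (TateIn Φ (Z.prod U) c ↔ ∀ i ≤ c, HasCycle W Z i → TateIn Φ U (c - i)) ∧
      (SemisimpleTateIn Φ (Z.prod U) c ↔
        ∀ i ≤ c, HasCycle W Z i → SemisimpleTateIn Φ U (c - i)) := by
  have hp := (Fact.out : p.Prime).one_lt
  have hT : ∀ i, HasWeilNumber Φ (X i) (e i) (α i) := fun i => weilNumber_of (hα i) (hX i) (hX2 i)
  have H : FamCond ι α n 𝓛 (fun i => galoisClosure (E i)) L₀ := famCond_of hα hL₀ h𝓛 hE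
  have hTT : TateTimesP Φ (IsSlopeProduct ι 𝓛) Z := tateTimesP_fam hT hZ H
  have hPpow : ∀ (ν : W.K) (m : ℕ), 0 < m → IsSlopeProduct ι 𝓛 ν → IsSlopeProduct ι 𝓛 (ν ^ m) :=
    fun ν m _ h => inM_pow ν m h
  refine ⟨fun c => Pool.Agent.Y138.TU.semisimple_of_times hp hTT (inM_one _) c, ?_⟩
  intro U hU c
  simp only [hasCycle_iff]
  have key : ∀ b, Pool.Agent.Y138.TU.TateK Φ (Z.prod U) b c ↔
      ∀ i ≤ c, (∃ x, Z.IsCyc i x ∧ ¬ HomEq W x 0) → Pool.Agent.Y138.TU.TateK Φ U b (c - i) := fun b =>
    Pool.Agent.Y138.TU.tateK_prod_iff hp hTT (inM_one _) hPpow hU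
  refine ⟨?_, ?_⟩
  · rw [Pool.Agent.Y138.TU.tateIn_iff, key 1]
    simp only [Pool.Agent.Y138.TU.tateIn_iff]
  · simp only [Pool.Agent.Y138.TU.semisimple_iff, key]
    constructor
    · intro h i hi hx a
      exact h a i hi hx
    · intro h a i hi hx
      exact h i hi hx a

end Pool.Agent.Results.MP_021685_ag.ProductsOfKThreeType
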