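import Pool.Agent.Q71.SP.Cnv

/-!
# The Tate conjecture for products of powers of varieties with three Frobenius slopes, of any
# dimensions, with other varieties

Let `F` be a number field with algebraic closure `k` and Galois group `Γ`, `W` the `ℓ`-adic
cohomology of the varieties over `k` with algebraically closed coefficient field `K`, and `χ` the
inverse of the cyclotomic character (so that the condition `g c = χ(g)^j c` for `c ∈ H^(2j)` says that
`c` is an invariant of `H^(2j)(j)`). The theorem is proved for an abstract Weil cohomology theory
with an action of a group.

Let `X_i` be varieties over `F`, of even or odd dimension, for which numerical and homological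
equivalence coincide, whose transcendental cohomology `T_i` (the orthogonal complement of all
algebraic classes), of dimension `r_i`, is concentrated in the middle degree and irreducible under
every open subgroup. Suppose that for every `i` there is an element `F_i` (a Frobenius element at a
place of good reduction) and a valuation `v_i` of `K` for which `F_i` acts on `T_i` with the slopes
`h + c_i`, `h - c_i`, once each, and `h`, where `c_i > 0`. Even dimension: ordinary reduction of K3
type; here `r_i` is `3` or at least `5`. Odd dimension: for example a curve of genus `g` whose
Jacobian has `p`-rank one and the slopes `0, 1/2, ..., 1/2, 1` modulo some prime ideal.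

Suppose that the `T_i` for varieties of dimensions of the same parity are not isomorphic to each
other up to a twist. (For two varieties of even dimension with rank `8` the valuation and the element
have to be the same. If `X_i` has even and `X_j` has odd dimension one more condition is needed if
`r_i = r_j + 1`.) Let `Z` be any variety whose cohomology algebra is generated by
representations `U` such that for each `i`: there are less than `r_i - 2` pairs of slopes of `F_i` on
`U` with difference `c_i`; or `U` has an invariant symmetric or alternating form up to a character
and small dimension.

Let `Y = X_1^(n_1) × (X_2^(n_2) × ( ⋯ × Z))` with arbitrary exponents, and let `L` be a set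
of indices of varieties of even dimension which contains all the `i` with `dim X_i` even and
`n_i ≥ r_i`.

**Theorem.** If the Tate conjecture (over the finite extensions of `F`) holds for `Y`, then it
holds for `Z`. Conversely, suppose that it holds for `Z`, and let `F'` be a finite extension of `F`, with
the Galois group `Δ'`. If `L` is empty then every Tate class of `Y` over `F'` is a combination of classes
of cycles which are invariant under `Δ'`. If `L` is not empty the same follows if the discriminant
characters of the `X_i`, `i ∈ L`, are independent on the Galois group `Δ` of a finite extension of
`F'` over which the algebraic classes of `Z` and of the `X_i` are defined.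

So one prime of `F` (one Frobenius element for each `X_i`) is sufficient for the Tate conjecture in
all codimensions for mixed products of varieties of even and of odd dimension.
-/

universe u

namespace Pool.Agent.Results.MP_021685_ag.SlopeTowers

open Pool.Agent.H914 Pool.Agent.TH125.Gal Pool.Agent.Q71.TM.P Pool.Agent.Q71.SP.P

/-- **The Tate conjecture for products of powers of varieties of even and odd dimension with three
Frobenius slopes with other varieties.** -/
theorem result {k : Type u} [Field k] {𝒱 : VarClass k} {ops : CycleOps 𝒱}
    {W : WeilCohomology.{u, 0} ops} (hK : IsAlgClosed W.K) {Γ : Type} [Group Γ] {D : Tw W.K Γ}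
    {ι : Type} {a : ι → SData W.K Γ} {X : ι → GVar W Γ} {Z : GVar W Γ}
    (hX : SlopeFamily D a X Z) {S L : Set ι} {Y : GVar W Γ}
    (hY : MTower (fun i => (a i).r) X Z S L Y) (hG : GaloisType D Y) :
    (Tate D Y → Tate D Z) ∧
    (Tate D Z → ∀ Δ' : Subgroup Γ, Δ'.FiniteIndex →
      (L = ∅ ∨ ∃ Δ ≤ Δ', Δ.FiniteIndex ∧ (∀ i ∈ S, AlgDefined D Δ (X i)) ∧
        AlgDefined D Δ Z ∧ IndepOn Δ (fun i => discr D (X i)) L) → TateOver D Δ' Y) :=
  final_slopes hX hY hG

end Pool.Agent.Results.MP_021685_ag.SlopeTowers
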