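import Mathlib
import Pool.Agent.Q70.HN.Times

/-!
# The Tate conjecture over finite fields for the products of abelian varieties with all varieties of
small Hodge numbers

Let `q = p ^ a` and let `A` be an **ordinary** abelian variety, of any dimension, over the field with
`q` elements, isogenous to a product of powers of abelian varieties with characteristic polynomials
of Frobenius `f i` (`i` in a finite set), the complex roots of `f i` being the conjugates of an
ordinary Weil number `π i` for `q` in a CM field `F i` (`IsPolyOf`). We suppose (the generic case; the
first condition is true, for example, if the Galois group of the normal closure of `F i` consists of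
all permutations of the embeddings compatible with the complex conjugation, or if only some
automorphism exchanges one embedding with its complex conjugate and fixes all the others):

* the functions `n` on the complex embeddings of `F i` with `n (conj φ) = - n φ` are an absolutely
  irreducible representation of the automorphisms of `ℂ` (`OddAbsolutelyIrreducible`), and there
  are no equivariant maps between those of `F i` and `F i'` for `i ≠ i'` (`Unrelated`).

Let `Z` be a smooth projective variety over the same field, and for each `w` let `h w` be numbers such
that the Newton polygon of the Frobenius endomorphism on `H ^ w (Z)` lies above the polygon with the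
slopes `i`, of multiplicity `h w i` (`HasHodgeNumbers`; the roots of the characteristic polynomial
have weight `w` by Deligne). By the theorems of Mazur, Ogus and Nygaard one can take the Hodge
numbers `h w i = h ^ (w - i) (Z, Ω ^ i)` if the crystalline cohomology of `Z` is torsion free and the
Hodge spectral sequence degenerates, and otherwise the Hodge numbers of any lift of `Z` to
characteristic zero. Let

  `spread w (h w) = ∑ i, h w i * (2 i - w) ^ 2 = ∑ h ^ (i, j) (i - j) ^ 2` (the sum over `i + j = w`).

**Theorem.** If for all `w` and `i` this number is less than the degree `[F i : ℚ]`, or `w` is even and
it is less than `2 [F i : ℚ]` (`SmallHodge`), then (`TateFor`) for every `c` **the Tate conjecture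
holds for `A × Z` in codimension `c` if and only if it holds for `Z` in the codimensions `c - i`,
`0 ≤ i ≤ dim A`**, and the same is true for the Tate conjecture together with the semisimplicity of
the eigenvalue `q ^ c`. The cohomology is any Weil cohomology with algebraically closed coefficient
field, for instance `ℓ`-adic or crystalline cohomology, with extended coefficients.

For example let `F i` have the degree at least `2 g` for all `i` (the degree is `2 dim (A i)` for the
simple factors `A i` of `A`). For a surface `Z` the condition is (third part of the theorem):

* `b_1 (Z) < 2 g` **and `p_g (Z) < g / 2`**; there is no condition on `h ^ (1, 1)`.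

Hence the Tate conjecture is true, in all codimensions, for `A ^ r × Z` for all `r`, all `A` with
simple factors of dimension at least three as above, and **all** K3 surfaces `Z` (Charles, Madapusi
Pera, and others); and for all surfaces with `b_1 (Z) < 2 g`, `p_g (Z) < g / 2` that satisfy the Tate
conjecture for divisors. For threefolds the condition for `w = 3` is `9 h ^ (3, 0) + h ^ (2, 1) < g`.
The eigenvalues of Frobenius on the cohomology of `Z` may be related in any way with the fields
`F i`, and nothing is assumed about their degrees. As `q` and the `π i` are arbitrary the theorem
can be applied over all finite extensions of the ground field.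

In the second part the `π i` are only not supersingular, and the sum of the squared deviations of the
Hodge slopes is to be smaller than that of the slopes of `π i` (`SmallFor`; for even `w` a factor two
is gained).

Relation to the starting files and to the results of this team. The starting theorem
`AbelianTimesKThree` (MP_2a05c8_ag) has products with K3 surfaces and other varieties with small
slopes, for `π i` such that any two pairs of conjugate embeddings can be separated by an automorphism
(flips). In `SmallSlopeDeviation` (MP_0f183b_ag, helper70, this team) the condition is, for each single
eigenvalue `α` of `Z`, that `α` is unrelated to `F i` or the mean square deviation of its slopes is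
small; over finitely generated fields of characteristic zero the Hodge numbers are used in
`TimesSmallHodgeNumbers` (MP_640417_ag, helper70). New here: over finite fields, conditions on Hodge
numbers only, in particular surfaces whose transcendental eigenvalues have small degree.

The proof. A multiplicative relation between an eigenvalue `α`, a power of `q` and conjugates of the
`π i` which is not trivial at `i` gives, by a second moment (Schur) argument for the slopes, that the
mean square deviation of the slopes of `α` is at least that of `π i`, which is `1 / 4` (`1 / 2` for
even weight); and that `α` has at least `[F i : ℚ]` conjugates, because the exponents of the relation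
are an odd function, whose conjugates span all odd functions, and their number is at most the degree
of `α`. So the sum of the squared deviations is at least `[F i : ℚ] / 4`. But it is at most
`spread w h / 4`, because the Newton polygon lies above the Hodge polygon (Abel summation). The
reduction of the conjecture for `A × Z` to relations is the one of the starting files (Y1.CT).
-/

set_option autoImplicit false

namespace Pool.Agent.Results.MP_021685_ag.TimesSmallHodgeNumbers

open NumberField Module Polynomial Pool.Agent.Y137.MV Pool.Agent.Y137.SL Pool.Agent.Q70.SQ
  Pool.Agent.Q70.HN

/-- **The Tate conjecture for `A × Z` in codimension `c` is equivalent to the one for `Z` in the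
codimensions `c - i`, `0 ≤ i ≤ dim A`, for the ordinary abelian varieties `A` over finite fields with
absolutely irreducible, unrelated CM fields of degree greater than `∑ h ^ (i, j) (i - j) ^ 2` (or half
of this number, for even degree), where `h ^ (i, j)` are the Hodge numbers of `Z`.** The second part
is about Weil numbers which are not ordinary, the third one evaluates the condition in low
degrees. -/
theorem result :
    (∀ (p : ℕ) [Fact p.Prime] (a : ℕ) (I : Type) [Fintype I] (F : I → Type)
      [∀ i, Field (F i)] [∀ i, NumberField (F i)] [∀ i, IsCMField (F i)] (π : ∀ i, F i)
      (f : I → ℤ[X]), 0 < a →
      (∀ i, π i * IsCMField.complexConj (F i) (π i) = (p : F i) ^ a) →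
      (∀ i, OddAbsolutelyIrreducible (F i)) → (∀ i i', i ≠ i' → Unrelated (F i) (F i')) →
      (∀ i, IsOrdinary p a (π i)) → (∀ i, Pool.Agent.Y1.CT.IsPolyOf (π i) (f i)) →
      TateFor (HasHodgeNumbersWith p a fun w h => ∀ i, SmallHodge w h (finrank ℚ (F i)))
        (p ^ a) f) ∧
    (∀ (p : ℕ) [Fact p.Prime] (a : ℕ) (I : Type) [Fintype I] (F : I → Type)
      [∀ i, Field (F i)] [∀ i, NumberField (F i)] [∀ i, IsCMField (F i)] (π : ∀ i, F i)
      (f : I → ℤ[X]), 0 < a →
      (∀ i, π i * IsCMField.complexConj (F i) (π i) = (p : F i) ^ a) →
      (∀ i, OddAbsolutelyIrreducible (F i)) → (∀ i i', i ≠ i' → Unrelated (F i) (F i')) →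
      (∀ i, HasOtherSlope p a (π i)) → (∀ i, Pool.Agent.Y1.CT.IsPolyOf (π i) (f i)) →
      TateFor (HasHodgeNumbersWith p a fun w h => ∀ i, SmallFor p a π w h i) (p ^ a) f) ∧
    ∀ (h : ℕ → ℕ) (D : ℕ),
      (SmallHodge 1 h D ↔ h 0 + h 1 < D) ∧
      (h 2 = h 0 → (SmallHodge 2 h D ↔ 4 * h 0 < D)) ∧
      (h 3 = h 0 → h 2 = h 1 → (SmallHodge 3 h D ↔ 2 * (9 * h 0 + h 1) < D)) := by
  refine ⟨?_, ?_, ?_⟩
  · intro p _ a I _ F _ _ _ π f ha hw habs hun hord hf
    exact tateFor_mono (fun χ hχ => goodRoots_of_hodge ha (fun i => (habs i).1)
      (with_of_ordinary ha hord hχ)) (tateFor_of (Nat.one_lt_pow ha.ne' (Fact.out : p.Prime).one_lt)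
      (noRel_good ha hw habs hun (fun i => other_of_ordinary ha (hord i)) f hf))
  · intro p _ a I _ F _ _ _ π f ha hw habs hun hns hf
    exact tateFor_mono (fun χ hχ => goodRoots_of_hodge ha (fun i => (habs i).1) hχ)
      (tateFor_of (Nat.one_lt_pow ha.ne' (Fact.out : p.Prime).one_lt)
      (noRel_good ha hw habs hun hns f hf))
  · intro h D
    refine ⟨?_, fun h2 => ?_, fun h3 h2 => ?_⟩
    · simp only [SmallHodge, spread, Finset.sum_range_succ, Finset.sum_range_zero]
      have : ¬ Even 1 := by decide
      constructor
      · rintro (h1 | ⟨h1, -⟩)
        · push_cast at h1
          omega
        · exact absurd h1 this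
      · intro h1
        left
        push_cast
        omega
    · simp only [SmallHodge, spread, Finset.sum_range_succ, Finset.sum_range_zero, h2]
      constructor
      · rintro (h1 | ⟨-, h1⟩) <;> push_cast at h1 <;> omega
      · intro h1
        right
        refine ⟨even_two, ?_⟩
        push_cast
        omega
    · simp only [SmallHodge, spread, Finset.sum_range_succ, Finset.sum_range_zero, h3, h2]
      have : ¬ Even 3 := by decide
      constructor
      · rintro (h1 | ⟨h1, -⟩)
        · push_cast at h1
          omega
        · exact absurd h1 this
      · intro h1
        left
        push_cast
        omega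

end Pool.Agent.Results.MP_021685_ag.TimesSmallHodgeNumbers
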